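import Pool.Agent.Lib.MP_28303a_al.NT.ER94.Yr

/-! # Row ZR: extensions by zero have finite resolutions -/

set_option autoImplicit false
set_option linter.unusedSectionVars false

namespace Pool.Agent.NegK.NT.ER

universe u

open CategoryTheory Limits Opposite
open Pool.Agent.NegK.TW

namespace H60

section zz

variable {k : Type u} [Ring k] {Γ : Type u} [Group Γ] {B : Type u} [MulAction Γ B]
  {P : Pre Γ B} {W : SubMulAction Γ B} (hW : Up P W)

theorem zz_zero (N N' : Fn k (sub P W)) : (zz (k := k) hW).map (0 : N ⟶ N') = 0 := by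
  refine NatTrans.ext (funext fun U => ModuleCat.hom_ext (LinearMap.ext fun x => ?_))
  rfl

theorem zz_isZero {N : Fn k (sub P W)} (h : IsZero N) : IsZero ((zz (k := k) hW).obj N) := by
  rw [IsZero.iff_id_eq_zero]
  have h1 : (𝟙 N) = 0 := h.eq_of_src _ _
  rw [← (zz (k := k) hW).map_id, h1, zz_zero]

/-- Morphisms of boxes in `W` are morphisms of boxes. -/
def homE (V U : Bx (sub P W)) (n : ℕ) :
    (Σ _ : Fin n, (V ⟶ U)) ≃
      (Σ _ : Fin n, ((Bx.of (V.pt : B) : Bx P) ⟶ (Bx.of (U.pt : B) : Bx P))) where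
  toFun p := ⟨p.1, Bx.mk' (Bx.el p.2) (Bx.le_el p.2)⟩
  invFun p := ⟨p.1, Bx.mk' (Bx.el p.2) (Bx.le_el p.2)⟩
  left_inv p := rfl
  right_inv p := rfl

variable (k) in
/-- A representable functor on the boxes in `W` is a restriction. -/
noncomputable def psI (n : ℕ) (U : Bx (sub P W)) :
    H78.PS k (fun _ : Fin n => U) ≅
      (pb k (inc P W)).obj (H78.PS k (fun _ : Fin n => (Bx.of (U.pt : B) : Bx P))) :=
  NatIso.ofComponents (fun V => LinearEquiv.toModuleIso
    (Finsupp.domLCongr (R := k) (M := k) (homE V.unop U n))) (by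
    intro V V' f
    refine ModuleCat.hom_ext (Finsupp.lhom_ext fun p r => ?_)
    show (Finsupp.domLCongr (R := k) (M := k) (homE V'.unop U n))
        (Finsupp.lmapDomain k k (fun p : (Σ _ : Fin n, (V.unop ⟶ U)) => (⟨p.1, f.unop ≫ p.2⟩ :
          Σ _ : Fin n, (V'.unop ⟶ U))) (Finsupp.single p r)) =
      Finsupp.lmapDomain k k (fun p : (Σ _ : Fin n, ((Bx.of (V.unop.pt : B) : Bx P) ⟶
          (Bx.of (U.pt : B) : Bx P))) => (⟨p.1, (bxF (inc P W)).map f.unop ≫ p.2⟩ :
          Σ _ : Fin n, ((Bx.of (V'.unop.pt : B) : Bx P) ⟶ (Bx.of (U.pt : B) : Bx P))))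
        ((Finsupp.domLCongr (R := k) (M := k) (homE V.unop U n)) (Finsupp.single p r))
    rw [Finsupp.lmapDomain_apply, Finsupp.mapDomain_single, Finsupp.domLCongr_single,
      Finsupp.domLCongr_single, Finsupp.lmapDomain_apply, Finsupp.mapDomain_single]
    rfl)

/-- Extensions by zero of functors of finite support with finitely presented values have finite
resolutions. -/
theorem zz_rsl (hG : GoodStatement.{u}) (hZ : ZsStatement.{u}) (hR : RrStatement.{u})
    (hV : ∀ A : Loc k P, Finite A.ι → ∃ A' : Loc k P, Finite A'.ι ∧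
      Nonempty (vp hW (Loc.ev.obj A) ≅ Loc.ev.obj A'))
    (hF : H78.Fin0 (sub P W)) (hRC : ∀ U : Bx (sub P W), H78.RC (H78.Rg k U))
    (N : Fn k (sub P W)) (hN : H78.FPV (k := k) (B := Bx (sub P W)) N) :
    Rsl ((zz (k := k) hW).obj N) := by
  obtain ⟨h1, h2, h3, h4, h5, h6⟩ := hG k Γ B P
  obtain ⟨z1, z2⟩ := hZ k Γ B P W hW
  have hev : ∀ A : Loc k P, Finite A.ι → Rsl (Loc.ev.obj A) := fun A hA =>
    h6 _ A hA ⟨Retract.refl _⟩
  have hzz : ∀ A : Loc k P, Finite A.ι →
      Rsl ((zz (k := k) hW).obj ((pb k (inc P W)).obj (Loc.ev.obj A))) := fun A hA => by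
    obtain ⟨w, hw⟩ := z1 (Loc.ev.obj A)
    obtain ⟨A', hA', ⟨e⟩⟩ := hV A hA
    exact h3 _ hw (h5 _ _ ⟨e.symm⟩ (hev A' hA')) (hev A hA)
  have hΦ : H78.Good (fun N : H78.Fn k (Bx (sub P W)) => Rsl ((zz (k := k) hW).obj N)) :=
    { left := fun S hS a b => by
        obtain ⟨w, hw⟩ := z2 S hS
        exact h1 _ hw a b
      mid := fun S hS a b => by
        obtain ⟨w, hw⟩ := z2 S hS
        exact h2 _ hw a b
      right := fun S hS a b => by
        obtain ⟨w, hw⟩ := z2 S hS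
        exact h3 _ hw a b
      iso := fun M N e h => e.elim fun e => h5 _ _ ⟨(zz (k := k) hW).mapIso e⟩ h
      zero := fun M h => h4 _ (zz_isZero hW h)
      rep := fun n U M hM => by
        obtain ⟨ρ⟩ := hM
        obtain ⟨A, hA, ⟨e⟩⟩ := H78.exists_iso_ev (k := k) n (Bx.of (U.pt : B) : Bx P)
        have e1 : H78.PS k (fun _ : Fin n => U) ≅ (pb k (inc P W)).obj (Loc.ev.obj A) :=
          psI k n U ≪≫ (pb k (inc P W)).mapIso e
        exact hR k Γ B P _ _ ⟨ρ.map (zz (k := k) hW)⟩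
          (h5 _ _ ⟨(zz (k := k) hW).mapIso e1.symm⟩ (hzz A hA)) }
  exact H78.Good.all (H78.ei hF) hRC hΦ N hN

end zz

end H60

/-- **Row ZR.** -/
theorem zr (hG : GoodStatement.{u}) (hR : RrStatement.{u}) (hZ : ZsStatement.{u})
    (hV : VeStatement.{u}) : ZrStatement.{u} := by
  intro Γ _ T D j _ _ K hst k _ hk N hN
  have hF := H78.fin0 T K.fin
  have hFs := H94.fin0_sub hF (nv K)
  have hRs : ∀ U : Bx (sub (T.P Finset.univ) (nv K)), H78.RC (H78.Rg k U) := fun U =>
    H78.rc_end hFs U (by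
      have h1 : MulAction.stabilizer Γ U.pt = MulAction.stabilizer Γ (U.pt : T.Box) :=
        SubMulAction.stabilizer_of_subMul U.pt
      rw [h1]
      exact hst _ U.pt.2 k hk)
  exact H60.zz_rsl (up_nv K) hG hZ hR (fun A hA => hV Γ T D j K k A hA) hFs hRs N hN

end Pool.Agent.NegK.NT.ER
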